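import Pool.Agent.Helper3.AA.Spec
import Pool.Agent.Helper36.FT.Main

/-! AA (helper3), part `ONE`. -/

set_option autoImplicit false

open Real

namespace Pool.Agent.Helper36.AA

open Pool.Agent.Helper3.AA

theorem aw_comm {E : Type} [NormedAddCommGroup E] [InnerProductSpace ℝ E] (x y : E) :
    aw x y = aw y x := by
  unfold aw; rw [real_inner_comm]

theorem two_ps {E : Type} [NormedAddCommGroup E] [InnerProductSpace ℝ E] :
    ∀ {n : ℕ} (x : Fin n → E),
      ∑ i, ∑ j, (if i = j then 0 else aw (x i) (x j)) = 2 * ps (List.ofFn x)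
  | 0, x => by simp [ps]
  | n + 1, x => by
    have ih := two_ps fun i : Fin n => x i.succ
    rw [List.ofFn_succ]
    change _ = 2 * (((List.ofFn fun i : Fin n => x i.succ).map (aw (x 0))).sum +
      ps (List.ofFn fun i : Fin n => x i.succ))
    rw [mul_add, ← ih, List.map_ofFn, List.sum_ofFn, Fin.sum_univ_succ]
    have h1 : ∑ j : Fin (n + 1), (if (0 : Fin (n + 1)) = j then 0 else aw (x 0) (x j)) =
        ∑ j : Fin n, aw (x 0) (x j.succ) := by
      rw [Fin.sum_univ_succ, if_pos rfl, zero_add]
      refine Finset.sum_congr rfl fun j _ => ?_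
      rw [if_neg (Fin.succ_ne_zero j).symm]
    have h2 : ∀ i : Fin n, ∑ j : Fin (n + 1), (if i.succ = j then 0 else aw (x i.succ) (x j)) =
        aw (x 0) (x i.succ) + ∑ j : Fin n, (if i = j then 0 else aw (x i.succ) (x j.succ)) := by
      intro i
      rw [Fin.sum_univ_succ, if_neg (Fin.succ_ne_zero i), aw_comm]
      congr 1
      refine Finset.sum_congr rfl fun j _ => ?_
      simp only [Fin.succ_inj]
    rw [h1]
    simp only [h2, Finset.sum_add_distrib, Function.comp_def]
    ring

namespace ONE

theorem main : S_ONE := by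
  intro E _ _ V _ l hl hV
  have h1 := Pool.Agent.Helper36.FT.dependent (fun i : Fin l.length => l.get i)
    (fun i => (hl _ (List.get_mem l i)).2) (by
      intro hli
      have h2 : LinearIndependent ℝ (fun i : Fin l.length =>
          (⟨l.get i, (hl _ (List.get_mem l i)).1⟩ : V)) := by
        apply LinearIndependent.of_comp V.subtype
        exact hli
      have h3 := h2.fintype_card_le_finrank
      rw [Fintype.card_fin] at h3
      omega)
  have h2 := two_ps fun i : Fin l.length => l.get i
  rw [List.ofFn_get] at h2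
  have h3 : Pool.Agent.Helper36.FT.TT (fun i : Fin l.length => l.get i) = 2 * ps l := h2
  rw [h3] at h1
  linarith

end ONE

end Pool.Agent.Helper36.AA
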