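import Pool.Agent.Helper36.AA.ONE

/-! AA (helper3), part `FIN`. -/

set_option autoImplicit false

open Real

namespace Pool.Agent.Helper36.AA.FIN

open Pool.Agent.Helper3.AA Pool.Agent.Helper36.AA

theorem main (hTWO : S_TWO) : S_FIN := by
  intro d x hx
  have h1 : π ≤ ps (List.ofFn x) := by
    apply hTWO _ (⊤ : Submodule ℝ (EuclideanSpace ℝ (Fin (d + 1))))
    · intro y hy
      obtain ⟨i, rfl⟩ := (List.mem_ofFn' _ _).1 hy
      exact ⟨Submodule.mem_top, hx i⟩
    · rw [finrank_top, finrank_euclideanSpace, Fintype.card_fin, List.length_ofFn]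
  have h2 := two_ps x
  have h3 : ∑ i, ∑ j, arccos |inner ℝ (x i) (x j)| =
      ∑ i : Fin (d + 3), ∑ j : Fin (d + 3), (if i = j then 0 else π / 2) -
        ∑ i, ∑ j, (if i = j then 0 else aw (x i) (x j)) := by
    rw [← Finset.sum_sub_distrib]
    refine Finset.sum_congr rfl fun i _ => ?_
    rw [← Finset.sum_sub_distrib]
    refine Finset.sum_congr rfl fun j _ => ?_
    split_ifs with h
    · subst h
      rw [real_inner_self_eq_norm_sq, hx]
      simp
    · rfl
  have h4 : ∑ i : Fin (d + 3), ∑ j : Fin (d + 3), (if i = j then 0 else π / 2) =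
      ((d : ℝ) + 3) * ((d : ℝ) + 2) * (π / 2) := by
    have h5 : ∀ i : Fin (d + 3), ∑ j : Fin (d + 3), (if i = j then 0 else π / 2) =
        ((d : ℝ) + 2) * (π / 2) := by
      intro i
      have h6 : ∀ j : Fin (d + 3), (if i = j then 0 else π / 2) =
          π / 2 - (if i = j then π / 2 else 0) := by
        intro j
        split_ifs <;> ring
      simp only [h6, Finset.sum_sub_distrib, Finset.sum_ite_eq, Finset.mem_univ, if_true,
        Finset.sum_const, Finset.card_univ, Fintype.card_fin, nsmul_eq_mul]
      push_cast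
      ring
    simp only [h5, Finset.sum_const, Finset.card_univ, Fintype.card_fin, nsmul_eq_mul]
    push_cast
    ring
  rw [h3, h4, h2]
  nlinarith

end Pool.Agent.Helper36.AA.FIN
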